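import Mathlib.Analysis.Normed.Lp.MeasurableSpace
import Mathlib.Analysis.CStarAlgebra.Classes
import Mathlib.MeasureTheory.Constructions.HaarToSphere

/-! Definitions for the statement on three-body shape curves. -/

noncomputable section
open MeasureTheory

namespace Pool.Agent.MP_1ba41f_an

/-- `q` is a collision-free solution, defined for all real times, of the planar Newtonian
three-body equations with masses `m`, with centre of mass at the origin. -/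
def IsSol (m : Fin 3 → ℝ) (q : ℝ → Fin 3 → ℂ) : Prop :=
  (∀ t i j, i ≠ j → q t i ≠ q t j) ∧ (∀ t, ∑ i, (m i : ℂ) * q t i = 0) ∧
  ∃ v a : ℝ → Fin 3 → ℂ, ∀ t i,
    HasDerivAt (fun s => q s i) (v t i) t ∧ HasDerivAt (fun s => v s i) (a t i) t ∧
    (m i : ℂ) * a t i = ∑ j ∈ Finset.univ.erase i,
      (m i : ℂ) * (m j : ℂ) * (q t j - q t i) / ((‖q t j - q t i‖ : ℝ) : ℂ) ^ 3

/-- First mass-weighted Jacobi vector. -/
def jac1 (m : Fin 3 → ℝ) (c : Fin 3 → ℂ) : ℂ :=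
  ((√(m 0 * m 1 / (m 0 + m 1)) : ℝ) : ℂ) * (c 1 - c 0)

/-- Second mass-weighted Jacobi vector. -/
def jac2 (m : Fin 3 → ℝ) (c : Fin 3 → ℂ) : ℂ :=
  ((√(m 2 * (m 0 + m 1) / (m 0 + m 1 + m 2)) : ℝ) : ℂ) *
    (c 2 - ((m 0 : ℂ) * c 0 + (m 1 : ℂ) * c 1) / ((m 0 : ℂ) + (m 1 : ℂ)))

/-- The vector `w` of the problem. -/
def wv (z1 z2 : ℂ) : EuclideanSpace ℝ (Fin 3) :=
  !₂[(‖z1‖ ^ 2 - ‖z2‖ ^ 2) / 2, (z1 * (starRingEnd ℂ) z2).re, (z1 * (starRingEnd ℂ) z2).im]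

/-- The shape `w / (2 |w|)` of a configuration. -/
def shape (m : Fin 3 → ℝ) (c : Fin 3 → ℂ) : EuclideanSpace ℝ (Fin 3) :=
  (2 * ‖wv (jac1 m c) (jac2 m c)‖)⁻¹ • wv (jac1 m c) (jac2 m c)

/-- Surface area of the part of `E` on the sphere of radius `1/2`: the standard surface measure
`volume.toSphere` of the unit sphere (total mass `4 π`), scaled by `(1/2)^2`. -/
def area (E : Set (EuclideanSpace ℝ (Fin 3))) : ℝ :=
  (1 / 2) ^ 2 * ((volume : Measure (EuclideanSpace ℝ (Fin 3))).toSphere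
    {x | (1 / 2 : ℝ) • (x : EuclideanSpace ℝ (Fin 3)) ∈ E}).toReal

end Pool.Agent.MP_1ba41f_an
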