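import Mathlib
import Pool.Agent.MP_1ba41f_an.Shape
open MeasureTheory
namespace Pool.Agent.MP_1ba41f_an
/-- Sanity check: the shape sphere has area `π`. -/
theorem area_sphere : area (Metric.sphere 0 (1 / 2)) = Real.pi := by
  have : {x : Metric.sphere (0 : EuclideanSpace ℝ (Fin 3)) 1 |
      (1 / 2 : ℝ) • (x : EuclideanSpace ℝ (Fin 3)) ∈ Metric.sphere (0 : EuclideanSpace ℝ (Fin 3)) (1 / 2)} = Set.univ := by
    ext x
    have := x.2
    simp only [mem_sphere_iff_norm, sub_zero] at this
    simp [norm_smul]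
  unfold area
  rw [this, Measure.toSphere_apply_univ, EuclideanSpace.volume_ball_fin_three]
  simp [ENNReal.toReal_ofReal (by positivity : 0 ≤ Real.pi * 4 / 3)]
  ring
end Pool.Agent.MP_1ba41f_an
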