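import Mathlib
import Pool.Agent.MP_1ba41f_an.Shape
import Pool.Agent.MP_1ba41f_an.K3.Area1
import Pool.Agent.MP_1ba41f_an.K3.Area2
import Pool.Agent.MP_1ba41f_an.K3.Base
import Pool.Agent.MP_1ba41f_an.K3.Body
import Pool.Agent.MP_1ba41f_an.K3.Dio
import Pool.Agent.MP_1ba41f_an.K3.Eig
import Pool.Agent.MP_1ba41f_an.K3.Euler
import Pool.Agent.MP_1ba41f_an.K3.Expr
import Pool.Agent.MP_1ba41f_an.K3.Field
import Pool.Agent.MP_1ba41f_an.K3.Final
import Pool.Agent.MP_1ba41f_an.K3.Flq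
import Pool.Agent.MP_1ba41f_an.K3.Frame
import Pool.Agent.MP_1ba41f_an.K3.Ham
import Pool.Agent.MP_1ba41f_an.K3.Iter
import Pool.Agent.MP_1ba41f_an.K3.Lin
import Pool.Agent.MP_1ba41f_an.K3.Mod
import Pool.Agent.MP_1ba41f_an.K3.Newton
import Pool.Agent.MP_1ba41f_an.K3.Nf
import Pool.Agent.MP_1ba41f_an.K3.Red
import Pool.Agent.MP_1ba41f_an.K3.Reg
import Pool.Agent.MP_1ba41f_an.K3.Solv
import Pool.Agent.MP_1ba41f_an.K3.Step
import Pool.Agent.MP_1ba41f_an.K3.Sym
import Pool.Agent.MP_1ba41f_an.K3.Tori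
import Pool.Agent.MP_1ba41f_an.K3.Zero

namespace Pool.Agent.MP_1ba41f_an.SmallAreasOld

open Pool.Agent.MP_1ba41f_an Pool.Agent.MP_1ba41f_an.K3

/-- For all positive masses, every sufficiently small positive number is the area of the closure
of the shape curve of a global collision-free solution of the planar three-body problem. -/
theorem result : ∀ m : Fin 3 → ℝ, (∀ i, 0 < m i) → ∃ a : ℝ, 0 < a ∧ ∀ A0 : ℝ, 0 < A0 → A0 ≤ a →
    ∃ q : ℝ → Fin 3 → ℂ, IsSol m q ∧
      area (closure (Set.range fun t => shape m (q t))) = A0 :=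
  final (tori modC modR solv (iter (step frame lin)) (field expr zero)
    (flq modC gap eig nf red dio) sym (base reg)) ham newton euler body area1 area2 kron

end Pool.Agent.MP_1ba41f_an.SmallAreasOld
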